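import Mathlib
import Pool.Agent.H83.LS.Targets3
import Pool.Agent.H83.LS.Basic

/-!
Local smoothing for axially symmetric data, module KBV: decay of kernels, uniform over compact sets of parameters.
-/

set_option autoImplicit false

namespace Pool.Agent.H58.LS

open MeasureTheory Set Metric
open scoped ENNReal NNReal
open Pool.Agent.H83.LS

/-- smooth families with support in a fixed ball -/
def Cls {d m : ℕ} (O : Set (Fin m → ℝ)) (R : ℝ) (Ψ : (Fin m → ℝ) × EE d → ℂ) : Prop :=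
  ContDiffOn ℝ (⊤ : ℕ∞) Ψ (O ×ˢ univ) ∧ ∀ p ∈ O, ∀ ξ : EE d, R < ‖ξ‖ → Ψ (p, ξ) = 0

theorem cls_D {d m : ℕ} {O : Set (Fin m → ℝ)} {R : ℝ} {Ψ : (Fin m → ℝ) × EE d → ℂ} (hO : IsOpen O)
    (h : Cls O R Ψ) (v : EE d) : Cls O R (fun q => fderiv ℝ Ψ q (0, v)) := by
  have hU : IsOpen (O ×ˢ (univ : Set (EE d))) := hO.prod isOpen_univ
  constructor
  · exact (h.1.fderiv_of_isOpen hU (by simp)).clm_apply contDiffOn_const
  · intro p hp ξ hξ
    have hV : IsOpen (O ×ˢ {ξ : EE d | R < ‖ξ‖}) := hO.prod (isOpen_lt continuous_const continuous_norm)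
    have hev : Ψ =ᶠ[nhds (p, ξ)] fun _ => (0 : ℂ) := by
      filter_upwards [hV.mem_nhds (show (p, ξ) ∈ O ×ˢ {ξ : EE d | R < ‖ξ‖} from ⟨hp, hξ⟩)] with q hq
      exact h.2 q.1 hq.1 q.2 hq.2
    show fderiv ℝ Ψ (p, ξ) (0, v) = 0
    rw [hev.fderiv_eq]
    simp

theorem slice {d m : ℕ} {O : Set (Fin m → ℝ)} {R : ℝ} {Ψ : (Fin m → ℝ) × EE d → ℂ} (h : Cls O R Ψ)
    {p : Fin m → ℝ} (hp : p ∈ O) : ContDiff ℝ (⊤ : ℕ∞) (fun ξ : EE d => Ψ (p, ξ)) :=
  h.1.comp_contDiff (contDiff_const.prodMk contDiff_id) fun _ => ⟨hp, mem_univ _⟩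

theorem slice_fd {d m : ℕ} {O : Set (Fin m → ℝ)} {R : ℝ} {Ψ : (Fin m → ℝ) × EE d → ℂ} (hO : IsOpen O)
    (h : Cls O R Ψ) {p : Fin m → ℝ} (hp : p ∈ O) (ξ v : EE d) :
    fderiv ℝ (fun ξ : EE d => Ψ (p, ξ)) ξ v = fderiv ℝ Ψ (p, ξ) (0, v) := by
  have hU : IsOpen (O ×ˢ (univ : Set (EE d))) := hO.prod isOpen_univ
  have hd : DifferentiableAt ℝ Ψ (p, ξ) :=
    (h.1.contDiffAt (hU.mem_nhds ⟨hp, mem_univ ξ⟩)).differentiableAt (by simp)
  have hi : HasFDerivAt (fun ξ : EE d => (p, ξ)) (ContinuousLinearMap.inr ℝ (Fin m → ℝ) (EE d)) ξ :=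
    hasFDerivAt_prodMk_right p ξ
  have hc : HasFDerivAt (fun ξ : EE d => Ψ (p, ξ)) _ ξ := hd.hasFDerivAt.comp ξ hi
  rw [hc.fderiv]
  rfl

theorem ch_fd {d : ℕ} (x ξ v : EE d) :
    fderiv ℝ (fun ξ : EE d => e (inner ℝ x ξ)) ξ v = (2 * Real.pi * inner ℝ x v : ℝ) * Complex.I * e (inner ℝ x ξ) := by
  have h1 : HasFDerivAt (fun ξ : EE d => inner ℝ x ξ) (innerSL ℝ x) ξ := (innerSL ℝ x).hasFDerivAt
  have h2 : HasDerivAt e (((2 * Real.pi : ℝ) : ℂ) * Complex.I * e (inner ℝ x ξ)) (inner ℝ x ξ) := by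
    unfold e
    have h3 : HasDerivAt (fun t : ℝ => ((2 * Real.pi * t : ℝ) : ℂ) * Complex.I)
        (((2 * Real.pi * 1 : ℝ) : ℂ) * Complex.I) (inner ℝ x ξ) := by
      have h4 : HasDerivAt (fun t : ℝ => 2 * Real.pi * t) (2 * Real.pi * 1) (inner ℝ x ξ) :=
        (hasDerivAt_id _).const_mul _
      exact h4.ofReal_comp.mul_const _
    have h5 := h3.cexp
    rw [mul_one] at h5
    refine h5.congr_deriv ?_
    ring
  have h6 := h2.hasFDerivAt.comp ξ h1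
  have h7 : fderiv ℝ (fun ξ : EE d => e (inner ℝ x ξ)) ξ = _ := h6.fderiv
  rw [h7]
  simp
  ring

theorem hcs {d : ℕ} {g : EE d → ℂ} {R : ℝ} (h : ∀ ξ, R < ‖ξ‖ → g ξ = 0) : HasCompactSupport g := by
  refine HasCompactSupport.intro (isCompact_closedBall (0 : EE d) R) fun ξ hξ => h ξ ?_
  by_contra hcon
  push Not at hcon
  exact hξ (by simpa using hcon)

theorem ibp {d : ℕ} {g : EE d → ℂ} {R : ℝ} (hg : ContDiff ℝ (⊤ : ℕ∞) g) (hR : ∀ ξ, R < ‖ξ‖ → g ξ = 0)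
    (x v : EE d) : MK (fun ξ => fderiv ℝ g ξ v) x
      = - ((2 * Real.pi * inner ℝ x v : ℝ) * Complex.I) * MK g x := by
  have hcg := hcs hR
  have he : ContDiff ℝ (⊤ : ℕ∞) (fun ξ : EE d => e (inner ℝ x ξ)) :=
    contDiff_e.comp (innerSL ℝ x).contDiff
  have hfg : ContDiff ℝ (⊤ : ℕ∞) (fun ξ => fderiv ℝ g ξ v) :=
    (hg.fderiv_right (m := (⊤ : ℕ∞)) (by simp)).clm_apply contDiff_const
  have hcfg : HasCompactSupport (fun ξ => fderiv ℝ g ξ v) := hcg.fderiv_apply (𝕜 := ℝ) v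
  have hfe : (fun ξ : EE d => fderiv ℝ (fun ξ : EE d => e (inner ℝ x ξ)) ξ v) =
      fun ξ => (2 * Real.pi * inner ℝ x v : ℝ) * Complex.I * e (inner ℝ x ξ) := by
    funext ξ
    exact ch_fd x ξ v
  have i1 : Integrable (fun ξ => fderiv ℝ (fun ξ : EE d => e (inner ℝ x ξ)) ξ v * g ξ) := by
    rw [show (fun ξ => fderiv ℝ (fun ξ : EE d => e (inner ℝ x ξ)) ξ v * g ξ) =
      fun ξ => ((2 * Real.pi * inner ℝ x v : ℝ) * Complex.I * e (inner ℝ x ξ)) * g ξ from by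
        funext ξ
        rw [ch_fd]]
    exact (((continuous_const.mul he.continuous).mul hg.continuous).integrable_of_hasCompactSupport hcg.mul_left)
  have i2 : Integrable (fun ξ => e (inner ℝ x ξ) * fderiv ℝ g ξ v) :=
    (he.continuous.mul hfg.continuous).integrable_of_hasCompactSupport hcfg.mul_left
  have i3 : Integrable (fun ξ => e (inner ℝ x ξ) * g ξ) :=
    (he.continuous.mul hg.continuous).integrable_of_hasCompactSupport hcg.mul_left
  have h := integral_mul_fderiv_eq_neg_fderiv_mul_of_integrable (μ := (volume : Measure (EE d))) (v := v)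
    (f := fun ξ : EE d => e (inner ℝ x ξ)) (g := g) i1 i2 i3
    (fun y _ => he.differentiable (by simp) y) (fun y _ => hg.differentiable (by simp) y)
  unfold MK
  rw [h]
  simp only [ch_fd]
  rw [neg_mul, ← integral_const_mul]
  congr 1
  refine integral_congr_ae (Filter.Eventually.of_forall fun ξ => ?_)
  simp only
  ring

theorem bound0 {d m : ℕ} {K O : Set (Fin m → ℝ)} {R : ℝ} {Ψ : (Fin m → ℝ) × EE d → ℂ} (hK : IsCompact K)
    (hKO : K ⊆ O) (h : Cls O R Ψ) :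
    ∃ C : ℝ, 0 ≤ C ∧ ∀ p ∈ K, ∀ x : EE d, ‖MK (fun ξ => Ψ (p, ξ)) x‖ ≤ C := by
  have hcpt : IsCompact (K ×ˢ closedBall (0 : EE d) R) := hK.prod (isCompact_closedBall 0 R)
  have hcont : ContinuousOn Ψ (K ×ˢ closedBall (0 : EE d) R) :=
    h.1.continuousOn.mono (prod_mono hKO (subset_univ _))
  obtain ⟨A, hA⟩ := hcpt.exists_bound_of_continuousOn hcont
  refine ⟨|A| * (volume : Measure (EE d)).real (closedBall (0 : EE d) R), by positivity, fun p hp x => ?_⟩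
  have hpt : ∀ ξ : EE d, ‖e (inner ℝ x ξ) * Ψ (p, ξ)‖ ≤ (closedBall (0 : EE d) R).indicator (fun _ => |A|) ξ := by
    intro ξ
    rw [norm_mul, norm_e, one_mul]
    by_cases hξ : ξ ∈ closedBall (0 : EE d) R
    · rw [indicator_of_mem hξ]
      exact (hA (p, ξ) ⟨hp, hξ⟩).trans (le_abs_self A)
    · rw [indicator_of_notMem hξ]
      have : R < ‖ξ‖ := by
        by_contra hcon
        push Not at hcon
        exact hξ (by simpa using hcon)
      rw [h.2 p (hKO hp) ξ this, norm_zero]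
  unfold MK
  have hint : Integrable ((closedBall (0 : EE d) R).indicator (fun _ => |A|)) := by
    rw [integrable_indicator_iff isClosed_closedBall.measurableSet]
    refine integrableOn_const ?_ ?_
    · exact (isCompact_closedBall (0 : EE d) R).measure_lt_top.ne
    · simp
  refine (norm_integral_le_of_norm_le hint (Filter.Eventually.of_forall hpt)).trans (le_of_eq ?_)
  rw [integral_indicator isClosed_closedBall.measurableSet, setIntegral_const, smul_eq_mul, mul_comm]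

theorem boundN {d m : ℕ} {K O : Set (Fin m → ℝ)} {R : ℝ} (hK : IsCompact K) (hO : IsOpen O) (hKO : K ⊆ O)
    (v : EE d) (N : ℕ) : ∀ Ψ : (Fin m → ℝ) × EE d → ℂ, Cls O R Ψ →
    ∃ C : ℝ, 0 ≤ C ∧ ∀ p ∈ K, ∀ x : EE d, |inner ℝ x v| ^ N * ‖MK (fun ξ => Ψ (p, ξ)) x‖ ≤ C := by
  induction N with
  | zero =>
    intro Ψ h
    obtain ⟨C, hC0, hC⟩ := bound0 hK hKO h
    refine ⟨C, hC0, fun p hp x => ?_⟩
    rw [pow_zero, one_mul]
    exact hC p hp x
  | succ N ih =>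
    intro Ψ h
    obtain ⟨C, hC0, hC⟩ := ih _ (cls_D hO h v)
    refine ⟨C, hC0, fun p hp x => ?_⟩
    have h1 := hC p hp x
    have h2 := ibp (slice h (hKO hp)) (h.2 p (hKO hp)) x v
    have h3 : (fun ξ : EE d => fderiv ℝ (fun ξ : EE d => Ψ (p, ξ)) ξ v) = fun ξ => fderiv ℝ Ψ (p, ξ) (0, v) := by
      funext ξ
      exact slice_fd hO h (hKO hp) ξ v
    rw [h3] at h2
    have h4 : ‖MK (fun ξ => fderiv ℝ Ψ (p, ξ) (0, v)) x‖
        = 2 * Real.pi * |inner ℝ x v| * ‖MK (fun ξ => Ψ (p, ξ)) x‖ := by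
      rw [h2, norm_mul, norm_neg, norm_mul, Complex.norm_I, mul_one, Complex.norm_real, Real.norm_eq_abs, abs_mul,
        abs_of_pos (by positivity : (0 : ℝ) < 2 * Real.pi)]
    have h5 : |inner ℝ x v| * ‖MK (fun ξ => Ψ (p, ξ)) x‖ ≤ ‖MK (fun ξ => fderiv ℝ Ψ (p, ξ) (0, v)) x‖ := by
      rw [h4, mul_assoc]
      have hpi := Real.pi_gt_three
      have h6 : 0 ≤ |inner ℝ x v| * ‖MK (fun ξ => Ψ (p, ξ)) x‖ := by positivity
      nlinarith
    calc |inner ℝ x v| ^ (N + 1) * ‖MK (fun ξ => Ψ (p, ξ)) x‖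
        = |inner ℝ x v| ^ N * (|inner ℝ x v| * ‖MK (fun ξ => Ψ (p, ξ)) x‖) := by ring
      _ ≤ |inner ℝ x v| ^ N * ‖MK (fun ξ => fderiv ℝ Ψ (p, ξ) (0, v)) x‖ :=
          mul_le_mul_of_nonneg_left h5 (by positivity)
      _ ≤ C := h1

theorem coord_max {d : ℕ} (x : EE d) : ‖x‖ = 0 ∨ ∃ i : Fin d, ‖x‖ ≤ d * |x i| := by
  rcases Nat.eq_zero_or_pos d with hd | hd
  · left
    subst hd
    have : x = 0 := Subsingleton.elim _ _
    rw [this, norm_zero]
  · right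
    haveI : Nonempty (Fin d) := ⟨⟨0, hd⟩⟩
    obtain ⟨i, hi⟩ := Finite.exists_max (fun i : Fin d => |x i|)
    refine ⟨i, ?_⟩
    have h1 : ‖x‖ ^ 2 ≤ (d * |x i|) ^ 2 := by
      rw [EuclideanSpace.norm_sq_eq]
      calc ∑ j, ‖x j‖ ^ 2 ≤ ∑ _j : Fin d, |x i| ^ 2 := by
            refine Finset.sum_le_sum fun j _ => ?_
            rw [Real.norm_eq_abs]
            exact pow_le_pow_left₀ (abs_nonneg _) (hi j) 2
        _ = d * |x i| ^ 2 := by simp
        _ ≤ (d * |x i|) ^ 2 := by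
            rw [mul_pow]
            have hd1 : (1 : ℝ) ≤ d := by exact_mod_cast hd
            have : (d : ℝ) ≤ d ^ 2 := by nlinarith
            exact mul_le_mul_of_nonneg_right this (by positivity)
    exact (pow_le_pow_iff_left₀ (norm_nonneg _) (by positivity) (by norm_num)).mp h1

theorem kbv : T_KBV := by
  intro d m K O Ψ R hK hO hKO hΨ hR N
  have h : Cls O R Ψ := ⟨hΨ, hR⟩
  obtain ⟨C0, hC00, hC0⟩ := bound0 hK hKO h
  have hb : ∀ i : Fin d, ∃ C : ℝ, 0 ≤ C ∧ ∀ p ∈ K, ∀ x : EE d, |inner ℝ x (EuclideanSpace.single i (1 : ℝ))| ^ N *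
      ‖MK (fun ξ => Ψ (p, ξ)) x‖ ≤ C := fun i => boundN hK hO hKO _ N Ψ h
  choose C hCnn hC using hb
  refine ⟨(1 + d) ^ N * (C0 + ∑ i, C i), fun p hp x => ?_⟩
  have hsum : 0 ≤ ∑ i, C i := Finset.sum_nonneg fun i _ => hCnn i
  set Z : ℝ := ‖MK (fun ξ => Ψ (p, ξ)) x‖ with hZ
  have hZ0 : 0 ≤ Z := norm_nonneg _
  have hZC : Z ≤ C0 := hC0 p hp x
  have hd0 : (0 : ℝ) ≤ d := Nat.cast_nonneg d
  have h1d : (1 : ℝ) ≤ (1 + d) ^ N := one_le_pow₀ (by linarith)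
  rcases coord_max x with h0 | ⟨i, hi⟩
  · rw [h0, add_zero, one_pow, mul_one]
    calc Z ≤ C0 + ∑ i, C i := by linarith
      _ = 1 * (C0 + ∑ i, C i) := (one_mul _).symm
      _ ≤ _ := mul_le_mul_of_nonneg_right h1d (by linarith)
  · have h2 := hC i p hp x
    have h3 : (inner ℝ x (EuclideanSpace.single i (1 : ℝ)) : ℝ) = x i := by
      simp [EuclideanSpace.inner_single_right]
    rw [h3] at h2
    have h4 : (1 + ‖x‖) ^ N ≤ (1 + d) ^ N * (1 + |x i| ^ N) := by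
      have h5 : (1 + ‖x‖) ≤ (1 + d) * max 1 |x i| := by
        have a1 : (1 : ℝ) ≤ max 1 |x i| := le_max_left _ _
        have a2 : |x i| ≤ max 1 |x i| := le_max_right _ _
        have a3 : (d : ℝ) * |x i| ≤ d * max 1 |x i| := mul_le_mul_of_nonneg_left a2 hd0
        linarith
      calc (1 + ‖x‖) ^ N ≤ ((1 + d) * max 1 |x i|) ^ N := pow_le_pow_left₀ (by positivity) h5 N
        _ = (1 + d) ^ N * (max 1 |x i|) ^ N := mul_pow _ _ _
        _ ≤ (1 + d) ^ N * (1 + |x i| ^ N) := by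
          refine mul_le_mul_of_nonneg_left ?_ (by positivity)
          rcases le_total 1 |x i| with hx | hx
          · rw [max_eq_right hx]
            linarith
          · rw [max_eq_left hx, one_pow]
            have : 0 ≤ |x i| ^ N := by positivity
            linarith
    have h6 : C i ≤ ∑ i, C i := Finset.single_le_sum (fun j _ => hCnn j) (Finset.mem_univ i)
    calc Z * (1 + ‖x‖) ^ N ≤ Z * ((1 + d) ^ N * (1 + |x i| ^ N)) := mul_le_mul_of_nonneg_left h4 hZ0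
      _ = (1 + d) ^ N * (Z + |x i| ^ N * Z) := by ring
      _ ≤ (1 + d) ^ N * (C0 + ∑ i, C i) := by
        refine mul_le_mul_of_nonneg_left ?_ (by positivity)
        linarith

end Pool.Agent.H58.LS
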