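import Mathlib
import Pool.Agent.H83.LS.Targets3
import Pool.Agent.H83.LS.Basic

/-!
Local smoothing for axially symmetric data, module KAP: decay of the transplantation kernel.
-/

set_option autoImplicit false

namespace Pool.Agent.H58.LS

open MeasureTheory Set Metric
open scoped ENNReal NNReal
open Pool.Agent.H83.LS

/-- the exponent smooth as an extended number -/
abbrev sm : WithTop ℕ∞ := ((⊤ : ℕ∞) : WithTop ℕ∞)

theorem nat_le_sm (k : ℕ) : (k : WithTop ℕ∞) ≤ sm := by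
  have h : (k : ℕ∞) ≤ ⊤ := le_top
  exact WithTop.coe_le_coe.2 h

/-- Leibniz rule, crude form -/
theorem leib {f g : ℝ → ℂ} {S : Set ℝ} (hS : IsOpen S) (hf : ContDiffOn ℝ sm f S) (hg : ContDiffOn ℝ sm g S)
    {N : ℕ} {A B : ℝ} {σ : ℝ} (hσ : σ ∈ S) (hA : ∀ k ≤ N, ‖iteratedDeriv k f σ‖ ≤ A)
    (hB : ∀ k ≤ N, ‖iteratedDeriv k g σ‖ ≤ B) :
    ∀ k ≤ N, ‖iteratedDeriv k (fun σ => f σ * g σ) σ‖ ≤ 2 ^ N * (A * B) := by
  intro k hk
  have hu : UniqueDiffOn ℝ S := hS.uniqueDiffOn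
  have hA0 : 0 ≤ A := (norm_nonneg _).trans (hA 0 (Nat.zero_le _))
  have hB0 : 0 ≤ B := (norm_nonneg _).trans (hB 0 (Nat.zero_le _))
  have e : ∀ (h : ℝ → ℂ) (j : ℕ), ‖iteratedFDerivWithin ℝ j h S σ‖ = ‖iteratedDeriv j h σ‖ := by
    intro h j
    rw [norm_iteratedFDerivWithin_eq_norm_iteratedDerivWithin, iteratedDerivWithin_of_isOpen hS hσ]
  have h1 := norm_iteratedFDerivWithin_mul_le hf hg hu hσ (n := k) (nat_le_sm k)
  rw [e] at h1
  simp only [e] at h1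
  refine h1.trans ?_
  calc ∑ i ∈ Finset.range (k + 1), (k.choose i : ℝ) * ‖iteratedDeriv i f σ‖ * ‖iteratedDeriv (k - i) g σ‖
      ≤ ∑ i ∈ Finset.range (k + 1), (k.choose i : ℝ) * (A * B) := by
        refine Finset.sum_le_sum fun i hi => ?_
        have hi' : i ≤ k := Nat.lt_succ_iff.mp (Finset.mem_range.mp hi)
        rw [mul_assoc]
        refine mul_le_mul_of_nonneg_left ?_ (Nat.cast_nonneg _)
        exact mul_le_mul (hA i (hi'.trans hk)) (hB (k - i) ((Nat.sub_le _ _).trans hk)) (norm_nonneg _) hA0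
    _ = 2 ^ k * (A * B) := by
        rw [← Finset.sum_mul]
        congr 1
        have := Nat.sum_range_choose k
        exact_mod_cast this
    _ ≤ 2 ^ N * (A * B) := by
        refine mul_le_mul_of_nonneg_right ?_ (mul_nonneg hA0 hB0)
        exact pow_le_pow_right₀ (by norm_num) hk

/-- scaling -/
theorem scale_on {f : ℝ → ℂ} (hf : ContDiffOn ℝ sm f (Ioi 0)) {ρ : ℝ} (hρ : 0 < ρ) (k : ℕ) {σ : ℝ} (hσ : 0 < σ) :
    ‖iteratedDeriv k (fun σ => f (ρ * σ)) σ‖ = ρ ^ k * ‖iteratedDeriv k f (ρ * σ)‖ := by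
  have hm : MapsTo (ρ * ·) (Ioi (0 : ℝ)) (Ioi 0) := fun x hx => mul_pos hρ hx
  have h1 := iteratedDerivWithin_comp_const_smul (n := k) (s := Ioi (0 : ℝ)) (x := σ) hσ isOpen_Ioi.uniqueDiffOn
    (hf.of_le (nat_le_sm k)) ρ hm
  rw [iteratedDerivWithin_of_isOpen isOpen_Ioi hσ, iteratedDerivWithin_of_isOpen isOpen_Ioi (hm hσ)] at h1
  rw [h1, norm_smul, Real.norm_of_nonneg (by positivity)]

theorem scale_all {f : ℝ → ℂ} (hf : ContDiff ℝ sm f) {ρ : ℝ} (hρ : 0 ≤ ρ) (k : ℕ) (σ : ℝ) :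
    ‖iteratedDeriv k (fun σ => f (ρ * σ)) σ‖ = ρ ^ k * ‖iteratedDeriv k f (ρ * σ)‖ := by
  have h1 := iteratedDeriv_comp_const_smul (n := k) (hf.of_le (nat_le_sm k)) ρ
  rw [h1, norm_smul, Real.norm_of_nonneg (by positivity)]

/-- smooth and supported in the window -/
def Win (g : ℝ → ℂ) : Prop := ContDiff ℝ sm g ∧ ∀ σ, σ ∉ Icc (1 / 8 : ℝ) 8 → g σ = 0

theorem Win.cs {g : ℝ → ℂ} (h : Win g) : HasCompactSupport g :=
  HasCompactSupport.intro isCompact_Icc fun σ hσ => h.2 σ hσ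

theorem win_near {g : ℝ → ℂ} (h : Win g) {σ : ℝ} (hσ : σ ∉ Icc (1 / 8 : ℝ) 8) : g =ᶠ[nhds σ] fun _ => 0 := by
  have ho : IsOpen (Icc (1 / 8 : ℝ) 8)ᶜ := isClosed_Icc.isOpen_compl
  filter_upwards [ho.mem_nhds hσ] with t ht
  exact h.2 t ht

theorem Win.deriv {g : ℝ → ℂ} (h : Win g) : Win (deriv g) := by
  refine ⟨(contDiff_infty_iff_deriv.mp h.1).2, fun σ hσ => ?_⟩
  rw [(win_near h hσ).deriv_eq]
  simp

theorem hasDerivAt_ch (y σ : ℝ) :
    HasDerivAt (fun σ : ℝ => e (y * σ)) (((2 * Real.pi * y : ℝ) : ℂ) * Complex.I * e (y * σ)) σ := by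
  unfold e
  have h4 : HasDerivAt (fun t : ℝ => 2 * Real.pi * (y * t)) (2 * Real.pi * (y * 1)) σ :=
    ((hasDerivAt_id σ).const_mul y).const_mul _
  have h3 : HasDerivAt (fun t : ℝ => ((2 * Real.pi * (y * t) : ℝ) : ℂ) * Complex.I)
      (((2 * Real.pi * (y * 1) : ℝ) : ℂ) * Complex.I) σ := h4.ofReal_comp.mul_const _
  have h5 := h3.cexp
  rw [mul_one] at h5
  refine h5.congr_deriv ?_
  push_cast
  ring

theorem win_ibp {g : ℝ → ℂ} (h : Win g) (y : ℝ) :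
    ∫ σ, e (y * σ) * deriv g σ = - (((2 * Real.pi * y : ℝ) : ℂ) * Complex.I) * ∫ σ, e (y * σ) * g σ := by
  have hec : Continuous fun σ : ℝ => e (y * σ) := continuous_e.comp (continuous_const.mul continuous_id)
  have hd : Differentiable ℝ g := h.1.differentiable (by simp)
  have i1 : Integrable ((fun σ : ℝ => e (y * σ)) * deriv g) :=
    (hec.mul h.deriv.1.continuous).integrable_of_hasCompactSupport h.deriv.cs.mul_left
  have i2 : Integrable ((fun σ : ℝ => ((2 * Real.pi * y : ℝ) : ℂ) * Complex.I * e (y * σ)) * g) :=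
    ((continuous_const.mul hec).mul h.1.continuous).integrable_of_hasCompactSupport h.cs.mul_left
  have i3 : Integrable ((fun σ : ℝ => e (y * σ)) * g) :=
    (hec.mul h.1.continuous).integrable_of_hasCompactSupport h.cs.mul_left
  have := integral_mul_deriv_eq_deriv_mul_of_integrable (u := fun σ : ℝ => e (y * σ)) (v := g)
    (fun σ _ => hasDerivAt_ch y σ) (fun σ _ => (hd σ).hasDerivAt) i1 i2 i3
  rw [this, neg_mul, ← integral_const_mul]
  congr 1
  refine integral_congr_ae (Filter.Eventually.of_forall fun σ => ?_)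
  simp only
  ring

theorem win_bd {g : ℝ → ℂ} (h : Win g) {A : ℝ} (hA : ∀ σ ∈ Ioo (1 / 8 : ℝ) 8, ‖g σ‖ ≤ A) (y : ℝ) :
    ‖∫ σ, e (y * σ) * g σ‖ ≤ 8 * A := by
  have hA0 : 0 ≤ A := (norm_nonneg _).trans (hA 1 (by constructor <;> norm_num))
  have hne : ∀ᵐ σ : ℝ, σ ≠ 1 / 8 ∧ σ ≠ 8 := by
    have h : ∀ c : ℝ, ∀ᵐ x : ℝ, x ≠ c := fun c => by simp [ae_iff, measure_singleton]
    filter_upwards [h (1 / 8), h 8] with x h1 h2
    exact ⟨h1, h2⟩
  have hint : Integrable ((Ioo (1 / 8 : ℝ) 8).indicator (fun _ => A)) := by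
    rw [integrable_indicator_iff measurableSet_Ioo]
    refine integrableOn_const ?_ ?_
    · simp
    · simp
  refine (norm_integral_le_of_norm_le hint ?_).trans ?_
  · filter_upwards [hne] with σ hσ
    rw [norm_mul, norm_e, one_mul]
    by_cases hin : σ ∈ Ioo (1 / 8 : ℝ) 8
    · rw [indicator_of_mem hin]
      exact hA σ hin
    · rw [indicator_of_notMem hin]
      have : σ ∉ Icc (1 / 8 : ℝ) 8 := fun hc =>
        hin ⟨lt_of_le_of_ne hc.1 (Ne.symm hσ.1), lt_of_le_of_ne hc.2 hσ.2⟩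
      rw [h.2 σ this, norm_zero]
  · rw [integral_indicator measurableSet_Ioo, setIntegral_const, smul_eq_mul]
    have : (volume : Measure ℝ).real (Ioo (1 / 8 : ℝ) 8) = 8 - 1 / 8 := by
      rw [Measure.real, Real.volume_Ioo, ENNReal.toReal_ofReal (by norm_num)]
    rw [this]
    nlinarith

theorem win_dec (N : ℕ) : ∀ {g : ℝ → ℂ}, Win g → ∀ {A : ℝ}, (∀ σ ∈ Ioo (1 / 8 : ℝ) 8, ‖iteratedDeriv N g σ‖ ≤ A) →
    ∀ y : ℝ, |y| ^ N * ‖∫ σ, e (y * σ) * g σ‖ ≤ 8 * A := by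
  induction N with
  | zero =>
    intro g h A hA y
    rw [pow_zero, one_mul]
    exact win_bd h (by simpa using hA) y
  | succ N ih =>
    intro g h A hA y
    have h1 := ih h.deriv (A := A) (fun σ hσ => by
      have := hA σ hσ
      rwa [iteratedDeriv_succ'] at this) y
    have h2 := win_ibp h y
    have h3 : ‖∫ σ, e (y * σ) * deriv g σ‖ = 2 * Real.pi * |y| * ‖∫ σ, e (y * σ) * g σ‖ := by
      rw [h2, norm_mul, norm_neg, norm_mul, Complex.norm_I, mul_one, Complex.norm_real, Real.norm_eq_abs, abs_mul,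
        abs_of_pos (by positivity : (0 : ℝ) < 2 * Real.pi)]
    have h4 : |y| * ‖∫ σ, e (y * σ) * g σ‖ ≤ ‖∫ σ, e (y * σ) * deriv g σ‖ := by
      rw [h3, mul_assoc]
      have hpi := Real.pi_gt_three
      have : 0 ≤ |y| * ‖∫ σ, e (y * σ) * g σ‖ := by positivity
      nlinarith
    calc |y| ^ (N + 1) * ‖∫ σ, e (y * σ) * g σ‖ = |y| ^ N * (|y| * ‖∫ σ, e (y * σ) * g σ‖) := by ring
      _ ≤ |y| ^ N * ‖∫ σ, e (y * σ) * deriv g σ‖ := mul_le_mul_of_nonneg_left h4 (by positivity)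
      _ ≤ 8 * A := h1

theorem prod_win {χ u : ℝ → ℂ} (hχ : ContDiff ℝ sm χ) (hs : ∀ σ, χ σ ≠ 0 → 1 / 8 ≤ σ ∧ σ ≤ 8)
    (hu : ContDiffOn ℝ sm u (Ioi 0)) : Win (fun σ => χ σ * u σ) := by
  have hz : ∀ σ, σ ∉ Icc (1 / 8 : ℝ) 8 → χ σ * u σ = 0 := by
    intro σ hσ
    have : χ σ = 0 := by
      by_contra h
      exact hσ (hs σ h)
    rw [this, zero_mul]
  refine ⟨contDiff_iff_contDiffAt.mpr fun σ => ?_, hz⟩
  rcases lt_or_ge 0 σ with h | h
  · exact hχ.contDiffAt.mul (hu.contDiffAt (isOpen_Ioi.mem_nhds h))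
  · have hev : (fun σ => χ σ * u σ) =ᶠ[nhds σ] fun _ => (0 : ℂ) := by
      filter_upwards [isOpen_Iio.mem_nhds (show σ ∈ Iio (1 / 8 : ℝ) from lt_of_le_of_lt h (by norm_num))] with t ht
      exact hz t fun hc => absurd hc.1 (not_le.mpr ht)
    exact contDiffAt_const.congr_of_eventuallyEq hev

/-- the key estimate -/
theorem key (N : ℕ) {χ u : ℝ → ℂ} {B U y : ℝ} (hχ : CB N B χ) (hu : ContDiffOn ℝ sm u (Ioi 0))
    (hU : ∀ k ≤ N, ∀ σ ∈ Ioo (1 / 8 : ℝ) 8, ‖iteratedDeriv k u σ‖ ≤ U) :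
    Integrable (fun σ => e (y * σ) * (χ σ * u σ)) ∧
    ‖∫ σ, e (y * σ) * (χ σ * u σ)‖ ≤ 16 * 4 ^ N * (B * U) * ((1 + |y|) ^ N)⁻¹ := by
  obtain ⟨hχs, hχsupp, hχb⟩ := hχ
  have hw := prod_win hχs hχsupp hu
  have hec : Continuous fun σ : ℝ => e (y * σ) := continuous_e.comp (continuous_const.mul continuous_id)
  refine ⟨(hec.mul hw.1.continuous).integrable_of_hasCompactSupport hw.cs.mul_left, ?_⟩
  have hder : ∀ k ≤ N, ∀ σ ∈ Ioo (1 / 8 : ℝ) 8, ‖iteratedDeriv k (fun σ => χ σ * u σ) σ‖ ≤ 2 ^ N * (B * U) := by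
    intro k hk σ hσ
    have hσ0 : σ ∈ Ioi (0 : ℝ) := lt_trans (by norm_num) hσ.1
    exact leib isOpen_Ioi hχs.contDiffOn hu hσ0 (fun j hj => hχb j hj σ) (fun j hj => hU j hj σ hσ) k hk
  have h0 := win_bd hw (A := 2 ^ N * (B * U)) (fun σ hσ => by
    have := hder 0 (Nat.zero_le _) σ hσ
    simpa using this) y
  have hN := win_dec N hw (hder N (le_refl _)) y
  set Z : ℝ := ‖∫ σ, e (y * σ) * (χ σ * u σ)‖ with hZ
  have hZ0 : 0 ≤ Z := norm_nonneg _
  have hy : (0 : ℝ) < (1 + |y|) ^ N := by positivity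
  rw [← div_eq_mul_inv, le_div_iff₀ hy]
  have h5 : (1 + |y|) ^ N ≤ 2 ^ N * (1 + |y| ^ N) := by
    have h6 : 1 + |y| ≤ 2 * max 1 |y| := by
      have a1 : (1 : ℝ) ≤ max 1 |y| := le_max_left _ _
      have a2 : |y| ≤ max 1 |y| := le_max_right _ _
      linarith
    calc (1 + |y|) ^ N ≤ (2 * max 1 |y|) ^ N := pow_le_pow_left₀ (by positivity) h6 N
      _ = 2 ^ N * (max 1 |y|) ^ N := mul_pow _ _ _
      _ ≤ 2 ^ N * (1 + |y| ^ N) := by
        refine mul_le_mul_of_nonneg_left ?_ (by positivity)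
        rcases le_total 1 |y| with hx | hx
        · rw [max_eq_right hx]
          linarith
        · rw [max_eq_left hx, one_pow]
          have : 0 ≤ |y| ^ N := by positivity
          linarith
  calc Z * (1 + |y|) ^ N ≤ Z * (2 ^ N * (1 + |y| ^ N)) := mul_le_mul_of_nonneg_left h5 hZ0
    _ = 2 ^ N * (Z + |y| ^ N * Z) := by ring
    _ ≤ 2 ^ N * (8 * (2 ^ N * (B * U)) + 8 * (2 ^ N * (B * U))) := by
      refine mul_le_mul_of_nonneg_left ?_ (by positivity)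
      linarith
    _ = 16 * 4 ^ N * (B * U) := by
      have : (4 : ℝ) ^ N = 2 ^ N * 2 ^ N := by
        rw [← mul_pow]
        norm_num
      rw [this]
      ring

/-! ### smoothness of the Bessel integral -/

/-- the integral with a continuous weight -/
noncomputable def Kw (w : ℝ → ℂ) (y : ℝ) : ℂ := ∫ φ in (0 : ℝ)..Real.pi, e (y * Real.cos φ) * w φ

theorem Kw_deriv {w : ℝ → ℂ} (hw : Continuous w) (y : ℝ) :
    HasDerivAt (Kw w) (Kw (fun φ => ((2 * Real.pi * Real.cos φ : ℝ) : ℂ) * Complex.I * w φ) y) y := by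
  have hc : ∀ x : ℝ, Continuous fun φ : ℝ => e (x * Real.cos φ) := fun x =>
    continuous_e.comp (continuous_const.mul Real.continuous_cos)
  have h := intervalIntegral.hasDerivAt_integral_of_dominated_loc_of_deriv_le (μ := volume) (𝕜 := ℝ) (a := 0)
    (b := Real.pi) (x₀ := y) (s := univ)
    (F := fun x φ => e (x * Real.cos φ) * w φ)
    (F' := fun x φ => e (x * Real.cos φ) * (((2 * Real.pi * Real.cos φ : ℝ) : ℂ) * Complex.I * w φ))
    (bound := fun φ => 2 * Real.pi * ‖w φ‖)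
    Filter.univ_mem
    (Filter.Eventually.of_forall fun x => ((hc x).mul hw).aestronglyMeasurable)
    (((hc y).mul hw).intervalIntegrable _ _)
    (((hc y).mul (((Complex.continuous_ofReal.comp (continuous_const.mul Real.continuous_cos)).mul
      continuous_const).mul hw)).aestronglyMeasurable)
    (Filter.Eventually.of_forall fun φ _ x _ => ?_)
    ((continuous_const.mul hw.norm).intervalIntegrable _ _)
    (Filter.Eventually.of_forall fun φ _ x _ => ?_)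
  · exact h.2
  · rw [norm_mul, norm_e, one_mul, norm_mul, norm_mul, Complex.norm_I, mul_one, Complex.norm_real, Real.norm_eq_abs,
      abs_mul, abs_of_pos (by positivity : (0 : ℝ) < 2 * Real.pi)]
    have h1 := Real.abs_cos_le_one φ
    have h2 := norm_nonneg (w φ)
    have h3 : 0 ≤ 2 * Real.pi := by positivity
    have h4 : 2 * Real.pi * |Real.cos φ| ≤ 2 * Real.pi := by nlinarith
    exact mul_le_mul_of_nonneg_right h4 h2
  · have h1 := hasDerivAt_ch (Real.cos φ) x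
    have h2 : HasDerivAt (fun x : ℝ => e (x * Real.cos φ) * w φ)
        ((((2 * Real.pi * Real.cos φ : ℝ) : ℂ) * Complex.I * e (Real.cos φ * x)) * w φ) x := by
      have h3 := h1.mul_const (w φ)
      have h4 : (fun x : ℝ => e (x * Real.cos φ) * w φ) = fun x : ℝ => e (Real.cos φ * x) * w φ := by
        funext t
        rw [mul_comm t (Real.cos φ)]
      rw [h4]
      exact h3
    refine h2.congr_deriv ?_
    rw [mul_comm (Real.cos φ) x]
    ring

theorem Kw_smooth_nat (n : ℕ) : ∀ w : ℝ → ℂ, Continuous w → ContDiff ℝ n (Kw w) := by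
  induction n with
  | zero =>
    intro w hw
    have hd : Differentiable ℝ (Kw w) := fun y => (Kw_deriv hw y).differentiableAt
    exact contDiff_zero.mpr hd.continuous
  | succ n ih =>
    intro w hw
    have hd : Differentiable ℝ (Kw w) := fun y => (Kw_deriv hw y).differentiableAt
    push_cast
    rw [contDiff_succ_iff_deriv]
    refine ⟨hd, ?_, ?_⟩
    · intro h
      exact absurd h (by simp)
    · have e1 : deriv (Kw w) = Kw (fun φ => ((2 * Real.pi * Real.cos φ : ℝ) : ℂ) * Complex.I * w φ) := by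
        funext y
        exact (Kw_deriv hw y).deriv
      rw [e1]
      exact ih _ (((Complex.continuous_ofReal.comp (continuous_const.mul Real.continuous_cos)).mul
        continuous_const).mul hw)

theorem jn_smooth (m : ℕ) : ContDiff ℝ sm (fun y : ℝ => ((jn m y : ℝ) : ℂ)) := by
  have hw : Continuous fun φ : ℝ => ((Real.sin φ ^ (m - 2) : ℝ) : ℂ) :=
    Complex.continuous_ofReal.comp (Real.continuous_sin.pow _)
  have hK : ContDiff ℝ sm (Kw fun φ => ((Real.sin φ ^ (m - 2) : ℝ) : ℂ)) := by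
    refine contDiff_infty.mpr fun n => Kw_smooth_nat n _ hw
  have hre : ∀ y : ℝ, jn m y = (Kw (fun φ => ((Real.sin φ ^ (m - 2) : ℝ) : ℂ)) y).re := by
    intro y
    unfold Kw jn
    have hc : Continuous fun φ : ℝ => e (y * Real.cos φ) * ((Real.sin φ ^ (m - 2) : ℝ) : ℂ) :=
      (continuous_e.comp (continuous_const.mul Real.continuous_cos)).mul hw
    have h := Complex.reCLM.intervalIntegral_comp_comm (μ := volume) (hc.intervalIntegrable 0 Real.pi)
    have h' : ∫ φ in (0 : ℝ)..Real.pi, Complex.reCLM (e (y * Real.cos φ) * ((Real.sin φ ^ (m - 2) : ℝ) : ℂ))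
        = (∫ φ in (0 : ℝ)..Real.pi, e (y * Real.cos φ) * ((Real.sin φ ^ (m - 2) : ℝ) : ℂ)).re := h
    rw [← h']
    refine intervalIntegral.integral_congr fun φ _ => ?_
    simp only [Complex.reCLM_apply, Complex.re_mul_ofReal]
    congr 1
    unfold e
    rw [Complex.exp_ofReal_mul_I_re]
  have e1 : (fun y : ℝ => ((jn m y : ℝ) : ℂ)) = fun y : ℝ =>
      Complex.ofRealCLM (Complex.reCLM (Kw (fun φ => ((Real.sin φ ^ (m - 2) : ℝ) : ℂ)) y)) := by
    funext y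
    rw [hre y]
    rfl
  rw [e1]
  exact Complex.ofRealCLM.contDiff.comp (Complex.reCLM.contDiff.comp hK)

/-- uniform bounds for finitely many derivatives on a compact set -/
theorem der_bd {f : ℝ → ℂ} {S K : Set ℝ} (hS : IsOpen S) (hf : ContDiffOn ℝ sm f S) (hK : IsCompact K) (hKS : K ⊆ S)
    (N : ℕ) : ∃ A : ℝ, 0 ≤ A ∧ ∀ k ≤ N, ∀ σ ∈ K, ‖iteratedDeriv k f σ‖ ≤ A := by
  have h : ∀ k : ℕ, ∃ A : ℝ, ∀ σ ∈ K, ‖iteratedDeriv k f σ‖ ≤ A := by
    intro k
    have hc : ContinuousOn (iteratedDeriv k f) S := by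
      have := hf.continuousOn_iteratedDerivWithin (nat_le_sm k) hS.uniqueDiffOn
      exact this.congr fun x hx => (iteratedDerivWithin_of_isOpen hS hx).symm
    exact hK.exists_bound_of_continuousOn (hc.mono hKS)
  choose A hA using h
  refine ⟨∑ k ∈ Finset.range (N + 1), |A k|, Finset.sum_nonneg fun k _ => abs_nonneg _, fun k hk σ hσ => ?_⟩
  refine ((hA k σ hσ).trans (le_abs_self _)).trans ?_
  exact Finset.single_le_sum (f := fun k => |A k|) (fun j _ => abs_nonneg _)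
    (Finset.mem_range.mpr (Nat.lt_succ_of_le hk))

theorem inv_pow_shift {x ρ : ℝ} (h0 : 0 ≤ ρ) (h1 : ρ ≤ 1) (N : ℕ) :
    ((1 + |x|) ^ N)⁻¹ ≤ 2 ^ N * ((1 + |x - ρ|) ^ N)⁻¹ := by
  have h2 : 1 + |x - ρ| ≤ 2 * (1 + |x|) := by
    have : |x - ρ| ≤ |x| + |ρ| := by
      have := abs_add_le x (-ρ)
      rwa [abs_neg, ← sub_eq_add_neg] at this
    rw [abs_of_nonneg h0] at this
    linarith [abs_nonneg x]
  have h3 : (1 + |x - ρ|) ^ N ≤ 2 ^ N * (1 + |x|) ^ N := by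
    rw [← mul_pow]
    exact pow_le_pow_left₀ (by positivity) h2 N
  rw [← div_eq_mul_inv, le_div_iff₀ (by positivity), inv_mul_le_iff₀ (by positivity), mul_comm]
  exact h3

theorem kap (hASY : T_ASY) : T_KAP := by
  intro m N hm
  obtain ⟨a, ha, hbj, hab⟩ := hASY m hm
  -- bounds for the amplitude
  choose Ca hCa using hab
  set CA : ℝ := ∑ k ∈ Finset.range (N + 1), |Ca k| with hCAd
  have hCA0 : 0 ≤ CA := Finset.sum_nonneg fun k _ => abs_nonneg _
  have hCA : ∀ k ≤ N, ∀ y : ℝ, 1 / 8 ≤ y → ‖iteratedDeriv k a y‖ * y ^ k ≤ CA := by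
    intro k hk y hy
    refine ((hCa k y hy).trans (le_abs_self _)).trans ?_
    exact Finset.single_le_sum (f := fun k => |Ca k|) (fun j _ => abs_nonneg _)
      (Finset.mem_range.mpr (Nat.lt_succ_of_le hk))
  -- bounds for small rho
  have hpw : ContDiffOn ℝ sm (fun σ : ℝ => ((σ ^ (((m : ℝ) - 1) / 2) : ℝ) : ℂ)) (Ioi 0) := by
    have h1 : ContDiffOn ℝ sm (fun σ : ℝ => σ ^ (((m : ℝ) - 1) / 2)) (Ioi 0) := fun σ hσ =>
      (Real.contDiffAt_rpow_const_of_ne (ne_of_gt hσ)).contDiffWithinAt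
    exact Complex.ofRealCLM.contDiff.comp_contDiffOn h1
  have hKsub : Icc (1 / 8 : ℝ) 8 ⊆ Ioi 0 := fun σ hσ => lt_of_lt_of_le (by norm_num) hσ.1
  obtain ⟨P, hP0, hP⟩ := der_bd isOpen_Ioi hpw isCompact_Icc hKsub N
  obtain ⟨Q, hQ0, hQ⟩ := der_bd isOpen_univ (jn_smooth m).contDiffOn (isCompact_Icc (a := (0 : ℝ)) (b := 8))
    (subset_univ _) N
  set c1 : ℝ := 16 * 4 ^ N * (2 ^ N * (P * Q)) * 2 ^ N with hc1
  set c2 : ℝ := 16 * 4 ^ N * (CA * 8 ^ N) with hc2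
  have hc10 : 0 ≤ c1 := by positivity
  have hc20 : 0 ≤ c2 := by positivity
  refine ⟨N, c1 + c2, fun χ B x ρ hχ hρ => ?_⟩
  have hB0 : 0 ≤ B := (norm_nonneg _).trans (hχ.2.2 0 (Nat.zero_le _) 0)
  have hI : ∀ u : ℝ → ℂ, ∀ y : ℝ, ∫ σ in Ioi (0 : ℝ), e (y * σ) * (χ σ * u σ) = ∫ σ, e (y * σ) * (χ σ * u σ) := by
    intro u y
    refine setIntegral_eq_integral_of_forall_compl_eq_zero fun σ hσ => ?_
    have : χ σ = 0 := by
      by_contra h
      exact hσ (hKsub (hχ.2.1 σ h))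
    rw [this, zero_mul, mul_zero]
  have hP1 : 0 ≤ ((1 + |x + ρ|) ^ N)⁻¹ := by positivity
  have hP2 : 0 ≤ ((1 + |x - ρ|) ^ N)⁻¹ := by positivity
  rcases le_total ρ 1 with hρ1 | hρ1
  · -- small rho
    have e1 : kp m χ x ρ = ((ρ ^ (((m : ℝ) - 1) / 2) : ℝ) : ℂ) * ∫ σ in Ioi (0 : ℝ), e (x * σ) *
        (χ σ * (((σ ^ (((m : ℝ) - 1) / 2) : ℝ) : ℂ) * ((jn m (ρ * σ) : ℝ) : ℂ))) := by
      unfold kp
      rw [← integral_const_mul]
      refine setIntegral_congr_fun measurableSet_Ioi fun σ hσ => ?_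
      unfold bj
      rw [Real.mul_rpow hρ (le_of_lt hσ)]
      push_cast
      ring
    have hjs : ContDiff ℝ sm (fun σ : ℝ => ((jn m (ρ * σ) : ℝ) : ℂ)) :=
      (jn_smooth m).comp (contDiff_const.mul contDiff_id)
    have hU : ∀ k ≤ N, ∀ σ ∈ Ioo (1 / 8 : ℝ) 8,
        ‖iteratedDeriv k (fun σ : ℝ => ((σ ^ (((m : ℝ) - 1) / 2) : ℝ) : ℂ) * ((jn m (ρ * σ) : ℝ) : ℂ)) σ‖
          ≤ 2 ^ N * (P * Q) := by
      intro k hk σ hσ
      have hσ0 : σ ∈ Ioi (0 : ℝ) := lt_trans (by norm_num) hσ.1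
      refine leib isOpen_Ioi hpw hjs.contDiffOn hσ0 (fun j hj => hP j hj σ ⟨hσ.1.le, hσ.2.le⟩) (fun j hj => ?_) k hk
      rw [scale_all (jn_smooth m) hρ j σ]
      have h1 : ρ * σ ∈ Icc (0 : ℝ) 8 := ⟨mul_nonneg hρ (le_of_lt hσ0), by
        have h0 : (0 : ℝ) < σ := hσ0
        nlinarith [hσ.2]⟩
      calc ρ ^ j * ‖iteratedDeriv j (fun y : ℝ => ((jn m y : ℝ) : ℂ)) (ρ * σ)‖ ≤ 1 * Q :=
            mul_le_mul (pow_le_one₀ hρ hρ1) (hQ j hj _ h1) (norm_nonneg _) zero_le_one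
        _ = Q := one_mul Q
    have hk := (key N (y := x) hχ (hpw.mul hjs.contDiffOn) hU).2
    rw [e1, hI, norm_mul, Complex.norm_real]
    have h2 : ‖ρ ^ (((m : ℝ) - 1) / 2)‖ ≤ 1 := by
      rw [Real.norm_of_nonneg (Real.rpow_nonneg hρ _)]
      refine Real.rpow_le_one hρ hρ1 ?_
      have : (2 : ℝ) ≤ m := by exact_mod_cast hm
      linarith
    calc ‖ρ ^ (((m : ℝ) - 1) / 2)‖ * ‖∫ σ, e (x * σ) *
        (χ σ * (((σ ^ (((m : ℝ) - 1) / 2) : ℝ) : ℂ) * ((jn m (ρ * σ) : ℝ) : ℂ)))‖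
        ≤ 1 * (16 * 4 ^ N * (B * (2 ^ N * (P * Q))) * ((1 + |x|) ^ N)⁻¹) :=
          mul_le_mul h2 hk (norm_nonneg _) zero_le_one
      _ = (16 * 4 ^ N * (B * (2 ^ N * (P * Q)))) * ((1 + |x|) ^ N)⁻¹ := one_mul _
      _ ≤ (16 * 4 ^ N * (B * (2 ^ N * (P * Q)))) * (2 ^ N * ((1 + |x - ρ|) ^ N)⁻¹) :=
          mul_le_mul_of_nonneg_left (inv_pow_shift hρ hρ1 N) (by positivity)
      _ = c1 * B * ((1 + |x - ρ|) ^ N)⁻¹ := by
          rw [hc1]
          ring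
      _ ≤ (c1 + c2) * B * (((1 + |x - ρ|) ^ N)⁻¹ + ((1 + |x + ρ|) ^ N)⁻¹) := by
          refine mul_le_mul ?_ ?_ hP2 (by positivity)
          · exact mul_le_mul_of_nonneg_right (by linarith) hB0
          · linarith
  · -- large rho
    have hρ0 : 0 < ρ := lt_of_lt_of_le one_pos hρ1
    set b : ℝ → ℂ := fun y => (starRingEnd ℂ) (a y) with hb
    have hbs : ContDiffOn ℝ sm b (Ioi 0) := Complex.conjCLE.contDiff.comp_contDiffOn ha
    have hbn : ∀ k y, ‖iteratedDeriv k b y‖ = ‖iteratedDeriv k a y‖ := by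
      intro k y
      rw [← norm_iteratedFDeriv_eq_norm_iteratedDeriv, ← norm_iteratedFDeriv_eq_norm_iteratedDeriv]
      exact Complex.conjLIE.norm_iteratedFDeriv_comp_left a y k
    have sc : ∀ {f : ℝ → ℂ}, ContDiffOn ℝ sm f (Ioi 0) → (∀ k ≤ N, ∀ y : ℝ, 1 / 8 ≤ y →
        ‖iteratedDeriv k f y‖ * y ^ k ≤ CA) → ∀ k ≤ N, ∀ σ ∈ Ioo (1 / 8 : ℝ) 8,
        ‖iteratedDeriv k (fun σ => f (ρ * σ)) σ‖ ≤ CA * 8 ^ N := by
      intro f hf hfb k hk σ hσ
      have hσ0 : (0 : ℝ) < σ := lt_trans (by norm_num) hσ.1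
      rw [scale_on hf hρ0 k hσ0]
      have h1 : 1 / 8 ≤ ρ * σ := by nlinarith [hσ.1]
      have h2 := hfb k hk (ρ * σ) h1
      have h3 : ρ ^ k * ‖iteratedDeriv k f (ρ * σ)‖ = (‖iteratedDeriv k f (ρ * σ)‖ * (ρ * σ) ^ k) * (σ⁻¹) ^ k := by
        rw [mul_pow]
        have : σ ^ k * σ⁻¹ ^ k = 1 := by
          rw [← mul_pow, mul_inv_cancel₀ hσ0.ne', one_pow]
        calc ρ ^ k * ‖iteratedDeriv k f (ρ * σ)‖ = ρ ^ k * ‖iteratedDeriv k f (ρ * σ)‖ * 1 := (mul_one _).symm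
          _ = ρ ^ k * ‖iteratedDeriv k f (ρ * σ)‖ * (σ ^ k * σ⁻¹ ^ k) := by rw [this]
          _ = _ := by ring
      rw [h3]
      refine mul_le_mul h2 ?_ (by positivity) hCA0
      calc (σ⁻¹) ^ k ≤ 8 ^ k := by
            refine pow_le_pow_left₀ (by positivity) ?_ k
            rw [inv_le_comm₀ hσ0 (by norm_num)]
            have := hσ.1
            norm_num at this ⊢
            linarith
        _ ≤ 8 ^ N := pow_le_pow_right₀ (by norm_num) hk
    have mapsρ : MapsTo (fun σ : ℝ => ρ * σ) (Ioi 0) (Ioi 0) := fun σ hσ => mul_pos hρ0 hσ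
    have has : ContDiffOn ℝ sm (fun σ => a (ρ * σ)) (Ioi 0) :=
      ha.comp (contDiff_const.mul contDiff_id).contDiffOn mapsρ
    have hbs' : ContDiffOn ℝ sm (fun σ => b (ρ * σ)) (Ioi 0) :=
      hbs.comp (contDiff_const.mul contDiff_id).contDiffOn mapsρ
    have k1 := key N (y := x + ρ) hχ has (sc ha hCA)
    have k2 := key N (y := x - ρ) hχ hbs' (sc hbs (fun k hk y hy => by
      rw [hbn]
      exact hCA k hk y hy))
    have e1 : kp m χ x ρ = (∫ σ, e ((x + ρ) * σ) * (χ σ * a (ρ * σ))) + ∫ σ, e ((x - ρ) * σ) * (χ σ * b (ρ * σ)) := by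
      rw [← hI (fun σ => a (ρ * σ)), ← hI (fun σ => b (ρ * σ)), ← integral_add k1.1.integrableOn k2.1.integrableOn]
      unfold kp
      refine setIntegral_congr_fun measurableSet_Ioi fun σ hσ => ?_
      have hp : 0 < ρ * σ := mul_pos hρ0 hσ
      rw [hbj (ρ * σ) hp, map_mul, conj_e]
      have e2 : e ((x + ρ) * σ) = e (x * σ) * e (ρ * σ) := by
        rw [← e_add]
        congr 1
        ring
      have e3 : e ((x - ρ) * σ) = e (x * σ) * e (-(ρ * σ)) := by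
        rw [← e_add]
        congr 1
        ring
      rw [e2, e3, hb]
      ring
    rw [e1]
    refine (norm_add_le _ _).trans ?_
    have h3 : 16 * 4 ^ N * (B * (CA * 8 ^ N)) = c2 * B := by
      rw [hc2]
      ring
    rw [h3] at k1 k2
    calc _ ≤ c2 * B * ((1 + |x + ρ|) ^ N)⁻¹ + c2 * B * ((1 + |x - ρ|) ^ N)⁻¹ := add_le_add k1.2 k2.2
      _ = c2 * B * (((1 + |x - ρ|) ^ N)⁻¹ + ((1 + |x + ρ|) ^ N)⁻¹) := by ring
      _ ≤ (c1 + c2) * B * (((1 + |x - ρ|) ^ N)⁻¹ + ((1 + |x + ρ|) ^ N)⁻¹) := by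
        refine mul_le_mul_of_nonneg_right ?_ (by positivity)
        exact mul_le_mul_of_nonneg_right (by linarith) hB0

end Pool.Agent.H58.LS
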